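import Pool.Agent.X303.BB.Unique

/-!
# The Bloch-Beilinson filtrations of a class of varieties: existence, the smallest one, uniqueness

`CycleData V` and `IsCycleTheory` describe the Chow groups `CH^j(X)` with rational coefficients, the
cohomology groups `H^m(X, ℚ)`, the intermediate Jacobians `J^(2 j - 1)(X)` (up to torsion), the cycle class
maps, the Abel-Jacobi maps and the operations of correspondences for the smooth, connected, projective
complex varieties `X : V`, with those standard properties that are used. `IsBB T C F` says that the
filtrations `F X j ν = F^ν CH^j(X)`, for the varieties `X` with the property `C`, form a Bloch-Beilinson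
filtration: they satisfy the conditions 1 - 4 of the problem for all `X`, `Y` with the property `C` and all
correspondences `Γ` between them.

The theorem: let `C` be any class of varieties with a Bloch-Beilinson filtration.

* The sum and the intersection of any nonempty set `S` of Bloch-Beilinson filtrations for `C` are
  Bloch-Beilinson filtrations. So there are a smallest and a largest one.
* The smallest one is given by the formula `minF`: for `ν ≥ 3` the group `F^ν CH^j(X)` is spanned by the
  cycles `Γ_(ν-1) ⋯ Γ_2 z`, where `z` is homologically and Abel-Jacobi equivalent to zero and `Γ_i` is a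
  correspondence between members of `C` which induces the zero map on `H^(2 j_i - i)`.
* (Uniqueness.) Let `X` be in `C` and `j ≥ 0`, and suppose that for all `j ≤ a < b ≤ 2 j - 2` there is an
  algebraic correspondence on `X` which is the identity on `H^a(X)` and zero on `H^b(X)`. Then all
  Bloch-Beilinson filtrations for `C` coincide on `CH^j(X)`, and they are given by `minF`. For `j ≤ 2` there
  is no condition; for `j = 3` one has to separate `H^3(X)` from `H^4(X)` (for instance by the sum of the
  odd Künneth components, if it is algebraic). So neither all Künneth components nor those outside of the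
  degrees `j, …, 2 j - 2` are needed, and nothing is assumed for the other varieties.
-/

set_option autoImplicit false

namespace Pool.Agent.Results.MP_08891c_ag.AllFiltrations

open Pool.Agent.X303.BB

/-- The Bloch-Beilinson filtrations of a class of varieties form a complete lattice with an explicit
smallest element, and they coincide on `CH^j(X)` if algebraic correspondences on `X` separate the
cohomology groups in the degrees `j, …, 2 j - 2` pairwise. -/
theorem result (V : Type) (T : CycleData V) (hT : IsCycleTheory T) (C : V → Prop) :
    (∀ S : Set (∀ (X : V) (j : ℤ), ℕ → Submodule ℚ (T.CH X j)), S.Nonempty →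
      (∀ F ∈ S, IsBB T C F) → IsBB T C (supF T S) ∧ IsBB T C (infF T S)) ∧
    (∀ F, IsBB T C F →
      IsBB T C (minF T C) ∧ ∀ X, C X → ∀ (j : ℤ) (ν : ℕ), minF T C X j ν ≤ F X j ν) ∧
    ∀ F, IsBB T C F → ∀ X, C X → ∀ j : ℕ,
      (∀ μ κ : ℕ, 2 ≤ μ → μ < κ → κ ≤ j → Separates T X (2 * j - κ) (2 * j - μ)) →
      ∀ ν, F X j ν = minF T C X j ν :=
  ⟨fun _ hne hS => ⟨isBB_supF hT hne hS, isBB_infF hne hS⟩,
    fun _ hF => ⟨isBB_minF_of hT hF, fun _ hX j ν => minF_le hF hX j ν⟩,
    fun _ hF _ hX _ hsep ν => hF.eq_of_separates hT (isBB_minF_of hT hF) hX hsep ν⟩

end Pool.Agent.Results.MP_08891c_ag.AllFiltrations
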