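import Pool.Agent.X303.BB.Single

/-!
# Bloch-Beilinson filtrations: one variety at a time

`CycleData V` and `IsCycleTheory` describe the Chow groups `CH^j(X)` with rational coefficients, the
cohomology groups `H^m(X, ℚ)`, the intermediate Jacobians `J^(2 j - 1)(X)` (up to torsion), the cycle class
maps, the Abel-Jacobi maps and the operations of correspondences for the smooth, connected, projective
complex varieties `X : V`, with those standard properties that are used. `IsBB T C F` says that the
filtrations `F X j ν = F^ν CH^j(X)`, for the varieties `X` with the property `C`, form a Bloch-Beilinson
filtration: they satisfy the conditions 1 - 4 of the problem for all `X`, `Y` with the property `C` and all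
correspondences `Γ` between them.

The Bloch-Beilinson conjecture asks for a filtration for **all varieties simultaneously**. We show that
this is no issue, and that the conjecture can be stated for each variety separately, without filtrations.
Let `C` be a class of varieties such that any two members `X`, `Y` are direct summands (with respect to
correspondences of degree zero) of one member. Examples: all varieties (take `X × Y`); all products of
curves; all abelian varieties; all varieties of dimension at most `n`, `n ≥ 1` (take a smooth complete
intersection of dimension `n` in `X × Y × ℙ^N`, which dominates `X` and `Y`). Let `C₀` be a subclass such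
that each member of `C` is a direct summand of a member of `C₀`, for instance the class of the members of
dimension exactly `n`, or of those with an ample canonical class. Let `G` be a class that contains `C` such
that the motives of its members are direct summands of finite sums of the motives `h(Y)(- e)`,
`Y` in `C`, `e ≥ 0`. Then the following are equivalent.

1. There is a Bloch-Beilinson filtration for `G` (simultaneously for all members).
2. There is a Bloch-Beilinson filtration for `C`.
3. For each single variety `P` in `C₀` there is a filtration of the Chow groups of `P` that satisfies the
   conditions 1 - 4 for the correspondences from `P` to itself. (No compatibility is required for different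
   varieties.)
4. For each single variety `P` in `C₀` and each `j ≥ 2`: let `z` be a cycle on `P`, of codimension `j_2`,
   which is homologically and Abel-Jacobi equivalent to zero, and let `Γ_2, …, Γ_j` be homogeneous cycles on
   `P × P` such that `Γ_(ν-1) ⋯ Γ_2 z` has codimension `j_ν`, `Γ_ν` induces the zero map on
   `H^(2 j_ν - ν)(P, ℚ)` and `Γ_j ⋯ Γ_2 z` has codimension `j`; then `Γ_j ⋯ Γ_2 z = 0` in `CH^j(P)`.

So, if the conjecture is false, then a single variety, finitely many correspondences on it and a cycle on
it refute it. For the varieties of dimension at most two the condition 4 is the generalized Bloch
conjecture for the correspondences from a single surface to itself.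
-/

set_option autoImplicit false

namespace Pool.Agent.Results.MP_08891c_ag.OneVarietyAtATime

open Pool.Agent.X303.BB

/-- A Bloch-Beilinson filtration exists simultaneously for all varieties of the class `G` if and only if it
exists individually for each single variety of the class `C₀`, and if and only if a condition without
filtrations on the correspondences from a single variety to itself is satisfied. -/
theorem result (V : Type) (T : CycleData V) (hT : IsCycleTheory T) (C C₀ G : V → Prop)
    (hC : ∀ X Y, C X → C Y → ∃ P, C P ∧ IsRetract T X P ∧ IsRetract T Y P)
    (h₀ : ∀ X, C₀ X → C X) (h₀' : ∀ X, C X → ∃ P, C₀ P ∧ IsRetract T X P)
    (hG : ∀ X, C X → G X) (hG' : ∀ X, G X → IsGenerated T C X) :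
    [∃ F, IsBB T G F,
      ∃ F, IsBB T C F,
      ∀ P, C₀ P → ∃ F, IsBB T (· = P) F,
      ∀ P, C₀ P → ∀ j : ℕ, 2 ≤ j → ∀ z : T.CH P j, Chain T (· = P) P j (j + 1) z → z = 0].TFAE :=
  single hT hC h₀ h₀' hG hG'

end Pool.Agent.Results.MP_08891c_ag.OneVarietyAtATime
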