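import Pool.Agent.X308.S.Sq

/-!
# The Bloch-Beilinson filtration and square-zero correspondences between surfaces

`𝒱` is a class of smooth projective geometrically irreducible varieties over the field `k` closed
under products (for example all of them), `C` the Chow groups with rational coefficients (in the
form of their formal properties, `IsChowProj`), `H` a Weil cohomology theory (`IsWeilProj`), and
`N X j ⊆ CH^j(X)` are the kernels of the Abel-Jacobi maps (`IsAJKernel`: stable under
correspondences, a correspondence which acts as zero on `H^(2j-1)(X)` maps `CH^j(X)_hom` to the
kernel, theorem of Abel for curves). `SurfaceProperties H` and `HasSurfacesInProducts C` record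
three known facts: homologically trivial divisors on a product `X × Y` are sums of pull-backs of
divisors from `X` and from `Y`; every surface has a Chow-Kunneth decomposition as constructed by
Murre; for surfaces `S` and `T` there is a surface `U ⊆ S × T` which is a complete intersection of
two divisors of the class `A × T + S × B` (Bertini), so that the class of `U` is decomposable.

A variety `X` of any dimension is of surface type (`OfSurfaceType`) if its motive is a direct
summand of a finite sum of twists of motives of surfaces (or curves, `h(T)` being a summand of
`h(T × T)`), that is, if the diagonal of `X` is a sum of compositions `X → S_s → X` of
correspondences through surfaces. Examples: surfaces, all threefolds whose group of zero-cycles is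
universally supported on a surface (in particular uniruled threefolds), and all varieties dominated
by such varieties.

Theorem. There is a Bloch-Beilinson filtration (conditions 1-4 of the problem, including
`F^2 = ker AJ`) on the Chow groups of all varieties of surface type, simultaneously, if and only if
for every surface `U` every correspondence `Γ ∈ CH^2(U × U)` which is homologically trivial and has
square zero, `Γ ∘ Γ = 0` in `CH^2(U × U)`, and acts as zero on the divisors together with its
transpose, acts as zero on the Albanese kernel of `U`.

So in the case of varieties of surface type the conjecture is equivalent to the simplest instances
of the conjecture of Bloch: nilpotent homologically trivial correspondences of index two. (The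
nilpotence of homologically trivial correspondences, which would follow from finite-dimensionality,
says nothing about these.) The idea: for a homologically trivial `Γ : S → T` the correspondence
`q^* ∘ Γ ∘ p_*` of a complete intersection `U ⊆ S × T` has square zero, since `p_* ∘ q^*` is
decomposable, if `Γ` is replaced by its part between `h^2(S)` and `h^2(T)`.
-/

set_option autoImplicit false

open CategoryTheory AlgebraicGeometry

universe u v w

namespace Pool.Agent.Results.MP_08891c_ag.SquareZeroCorrespondences

open Pool.Agent.H914 Pool.Agent.W492.BB Pool.Agent.TH133 Pool.Agent.X308.S

/-- A Bloch-Beilinson filtration on the varieties of surface type exists if and only if the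
homologically trivial correspondences of square zero of surfaces act as zero on the Albanese
kernels. -/
theorem result {k : Type u} [Field k] {𝒱 : VarClass k} (C : TheoryData.{u, v, 0} 𝒱 ℚ)
    [IsChowProj C] {K : Type w} [Field K] (H : WeilTheoryData.{u, v, w} C K) [IsWeilProj H]
    (hS : SurfaceProperties H) (hU : HasSurfacesInProducts C)
    (N : ∀ X : 𝒱.Obj, ℕ → C.A X → Prop) (hN : IsAJKernel H N) :
    (∃ F, IsBBWithAJ H N (OfSurfaceType C) F) ↔ SquareZeroActTrivially H :=
  isBBWithAJ_iff_squareZero hS hU hN

end Pool.Agent.Results.MP_08891c_ag.SquareZeroCorrespondences
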