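import Pool.Agent.X307.ZC.CK

/-!
# The Bloch-Beilinson filtration on zero-cycles

`𝒱` is a class of smooth projective geometrically irreducible varieties over the field `k` closed
under products (for example all of them), `C` the Chow groups with rational coefficients (in the
form of their formal properties, `IsChowProj`), `H` a Weil cohomology theory (`IsWeilProj`), and
`D` is a class of varieties in `𝒱` containing a point. A Bloch-Beilinson filtration on the
zero-cycles of the varieties in `D` (`IsBBZero`) is a family of descending filtrations with
`F^0 = CH_0(X)`, `F^1` the zero-cycles of degree zero, `F^(dim X + 1) = 0`, stable under all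
correspondences `Γ ∈ CH^(dim Y)(X × Y)`, which are mapped to `F^(n+1)` if `Γ` acts as zero on
`H^(2 dim X - n)(X)`. These are the conditions of the problem for the Chow groups of zero-cycles.

Let `G^n CH_0(X)` be the group of the zero-cycles on `X` which are killed by all correspondences
from `X` to varieties of dimension less than `n` in `D` (`Low C D n x`; this filtration was
considered by Voisin). So `G^1` consists of the zero-cycles of degree zero, `G^2` is the Albanese
kernel.

**Part 1.** Suppose that the varieties in `D` satisfy `LefschetzFactors`, a consequence of the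
Lefschetz standard conjecture `B(X)`; so `D` can be the class of all varieties which satisfy `B(X)`
(it contains curves, surfaces, abelian varieties, complete intersections, and is closed under
products and smooth hyperplane sections), or all products of curves. The following are equivalent.

1. There is a Bloch-Beilinson filtration on the zero-cycles of the varieties in `D`.
2. (`BlochAll`) For `Y` of dimension `n`, every `Γ ∈ CH^n(X × Y)` acting as zero on
   `H^(2 dim X - n)(X)` kills `G^n CH_0(X)`.
3. (`BlochHom`) The same for homologically trivial `Γ` only.

If `D` is closed under certain sections (`HasSections`, `HasCommonCovers`; the class of all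
varieties with `B(X)` is) they are equivalent to

4. (`BlochTop`) For every `P` in `D`, of dimension `n`, every homologically trivial
   self-correspondence `Γ ∈ CH^n(P × P)` such that `Γ ∘ Γ` acts as zero on `CH_0(P)` kills
   `G^n CH_0(P)`.

So only the last step of the filtration of each variety is at stake. Moreover each Bloch-Beilinson
filtration `F` on the zero-cycles is equal to `G` (in particular `F^2` is automatically the kernel
of the Abel-Jacobi map), and it is multiplicative:
`F^m CH_0(X) × F^n CH_0(Y) ⊆ F^(m+n) CH_0(X × Y)`.

**Part 2.** Let `D` be arbitrary (no Lefschetz property) and suppose that there is a Bloch-Beilinson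
filtration on the zero-cycles of the varieties in `D`. If the theorem of Bloch and Srinivas holds in
`D` (for example all varieties over a universal domain), then any composition of `N(dim X)`
homologically trivial self-correspondences of degree zero of `X` in `D` is zero, where `N(0) = 1`,
`N(d + 1) = (d + 2) (2 N(d) + 1)`. So the zero-cycles over a universal domain are sufficient for the
nilpotence of all homologically trivial correspondences, the cycles of other dimensions are not
needed.
-/

set_option autoImplicit false

open CategoryTheory AlgebraicGeometry

universe u v w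

namespace Pool.Agent.Results.MP_08891c_ag.ZeroCyclesExplicit

open Pool.Agent.H914 Pool.Agent.W492.BB Pool.Agent.TH133 Pool.Agent.X307.ZC

/-- The Bloch-Beilinson filtration on zero-cycles: explicit form, criteria, consequences. -/
theorem result {k : Type u} [Field k] {𝒱 : VarClass k} (C : TheoryData.{u, v, 0} 𝒱 ℚ)
    [IsChowProj C] {K : Type w} [Field K] (H : WeilTheoryData.{u, v, w} C K) [IsWeilProj H]
    (D : 𝒱.Obj → Prop) (hpt : ∃ P, D P ∧ P.dim = 0) :
    (LefschetzFactors H D →
      [∃ F : ZFil C, IsBBZero H D F, BlochAll H D, BlochHom H D].TFAE ∧
      (HasSections H D → HasCommonCovers H D → (BlochHom H D ↔ BlochTop H D)) ∧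
      ∀ F : ZFil C, IsBBZero H D F → ∀ X : 𝒱.Obj, D X → ∀ (m : ℕ) (x : C.A X),
        (Mem F m x ↔ Low C D m x) ∧ ∀ Y : 𝒱.Obj, D Y → D (X.prod Y) → ∀ (n : ℕ) (y : C.A Y),
          Mem F m x → Mem F n y → Mem F (m + n) (C.ext x y)) ∧
    (BlochSrinivas C D → (∃ F : ZFil C, IsBBZero H D F) → ∀ X : 𝒱.Obj, D X →
      NilpotentOfIndex H X (nilIndex X.dim)) := by
  refine ⟨fun hL => ⟨tfae₄ hpt hL, fun hS hP => hom_iff_top hL hS hP, ?_⟩, ?_⟩
  · intro F hF X hX m x
    refine ⟨by rw [Mem, hF.eq_low hL hX m]; exact Iff.rfl, fun Y hY hXY n y hx hy => ?_⟩
    rw [Mem, hF.eq_low hL hX] at hx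
    rw [Mem, hF.eq_low hL hY] at hy
    rw [Mem, hF.eq_low hL hXY]
    exact ext_mem_low hL (hF.blochAll hL) hX hY hXY hx hy
  · rintro hBS ⟨F, hF⟩ X hX
    exact nilpotentOfIndex hF hBS hX

end Pool.Agent.Results.MP_08891c_ag.ZeroCyclesExplicit
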